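import Pool.Agent.U907.RL.Step4

/-!
# Class groups of the extensions of even degree of an arbitrary number field

`HasRank K m R`: the class group of `K` contains `(ℤ/m)^R`. Here:

* Let `m` be odd, `k > 0` even and `F` a number field with `(ℤ/m)^N ⊆ Cl(F)`. Then `F` has an
  extension `K` of degree `k` such that `(ℤ/2mk)^R ⊆ Cl(K)` for all `R ≤ N - (k + 2) [F : ℚ]`.
* So every number field `F` has, for every even `k`, every divisor `m` of `2 k` and every `R`,
  extensions `K` of degree `k` with `(ℤ/m)^R ⊆ Cl(K)`.
* If `S(d, m)` holds and `m` is odd then `S(d k, 2 m k)` holds for all even `k`.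

The earlier hand-in `MP_176ace_nt.MultiplesOfTheDegree` has the case `F = ℚ` of the second item, and, for all
`m` and `k`, the first and the last item with `m k` in place of `2 m k`.

Proof. The new case is that of a quadratic extension. Let `p_0, …, p_N` be large primes, `1` modulo `4` and
squares modulo each other, `D` their product and `K = F(√(-D))`. As in the case `F = ℚ`, by Legendre's
theorem `α_i = (p_i X + Y √(-D))² / p_i` generates the fourth power of an ideal of `K` for some integers
`X, Y`. Only finitely many squarefree integers are squares in `F`, since different ones give different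
subfields of `F` and a number field has only finitely many subfields (`U907/RL/Sq`). So no product of
different `p_i` is up to sign a square in `F`, and no product of different `p_i`, `i < N`, is a square in `K`
(`U907/RL/Quad`; the prime `p_N` is not used, otherwise `D` would be a square in `K` if `-1` is one).
If `𝔞_i ^ m = (β_i)` are ideals of `F` which generate `(ℤ/m)^N` then the `α_i ^ m β_i ^ 4`, `i < N`, are
`4 m`-th powers of ideals and independent modulo `ℓ`-th powers in `K` for all primes `ℓ ∣ 4 m`: for `ℓ = 2` by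
the above, as `m` is odd, and for `ℓ ∣ m` since an element of `F` which is an `ℓ`-th power in the quadratic
extension `K` is one in `F` (`U907/RL/Step4`). The units of `K` give at most `2 [F : ℚ]` relations. The
rest is the theorem of `MultiplesOfTheDegree` for the field `K` and the degree `k / 2`.
-/

set_option autoImplicit false

namespace Pool.Agent.Results.MP_176ace_nt.EvenExtensions

open NumberField

/-- `(ℤ/m)^R` is isomorphic to a subgroup of the class group of `K` -/
def HasRank (K : Type) [Field K] [NumberField K] (m R : ℕ) : Prop :=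
  ∃ f : Multiplicative (Fin R → ZMod m) →* ClassGroup (𝓞 K), Function.Injective f

/-- `S(d, m)`: for every `R` there is a number field of degree `d` whose class group contains
`(ℤ/m)^R` -/
def S (d m : ℕ) : Prop :=
  ∀ R : ℕ, ∃ (K : Type) (_ : Field K) (_ : NumberField K), Module.finrank ℚ K = d ∧ HasRank K m R

theorem hasRank_one (K : Type) [Field K] [NumberField K] (R : ℕ) : HasRank K 1 R := by
  refine ⟨1, ?_⟩
  intro a b _
  have : Subsingleton (Multiplicative (Fin R → ZMod 1)) :=
    inferInstanceAs (Subsingleton (Fin R → ZMod 1))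
  exact Subsingleton.elim a b

theorem HasRank.dvd {K : Type} [Field K] [NumberField K] {m m' R : ℕ} (hm : 0 < m) (h : m' ∣ m)
    (hK : HasRank K m R) : HasRank K m' R := by
  obtain ⟨f, hf⟩ := hK
  obtain ⟨c, rfl⟩ := h
  have hm' : 0 < m' := Nat.pos_of_mul_pos_right hm |> fun h => by
    rcases Nat.eq_zero_or_pos m' with h0 | h0
    · rw [h0, zero_mul] at hm
      exact absurd hm (lt_irrefl 0)
    · exact h0
  have hc : 0 < c := by
    rcases Nat.eq_zero_or_pos c with h0 | h0
    · rw [h0, mul_zero] at hm
      exact absurd hm (lt_irrefl 0)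
    · exact h0
  have : NeZero m' := ⟨hm'.ne'⟩
  have hz : m' • ((c : ℕ) : ZMod (m' * c)) = 0 := by
    rw [nsmul_eq_mul, ← Nat.cast_mul, ZMod.natCast_self]
  set φ : ZMod m' →+ ZMod (m' * c) := Pool.Agent.W240.CG.hm m' ((c : ℕ) : ZMod (m' * c)) hz with hφ
  have hφi : Function.Injective φ := by
    rw [injective_iff_map_eq_zero]
    intro x hx
    rw [hφ, Pool.Agent.W240.CG.hm_val, nsmul_eq_mul, ← Nat.cast_mul, ZMod.natCast_eq_zero_iff] at hx
    have h1 := Nat.dvd_of_mul_dvd_mul_right hc hx
    have h2 := Nat.eq_zero_of_dvd_of_lt h1 (ZMod.val_lt x)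
    exact (ZMod.val_eq_zero x).1 h2
  set ψ : (Fin R → ZMod m') →+ (Fin R → ZMod (m' * c)) := φ.compLeft (Fin R) with hψ
  have hψi : Function.Injective ψ := fun a b hab => funext fun i => hφi (congrFun hab i)
  exact ⟨f.comp (AddMonoidHom.toMultiplicative ψ), hf.comp hψi⟩

/-- the theorem of `MultiplesOfTheDegree` -/
theorem relative (F : Type) [Field F] [NumberField F] (m k N : ℕ) (hm : 1 ≤ m) (hk : 1 ≤ k)
    (hF : HasRank F m N) : ∃ (K : Type) (_ : Field K) (_ : NumberField K) (_ : Algebra F K),
      Module.finrank F K = k ∧ ∀ R, R + k * Module.finrank ℚ F ≤ N → HasRank K (m * k) R := by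
  obtain ⟨f, hf⟩ := hF
  by_cases h : 2 ≤ m * k
  · obtain ⟨D⟩ := Pool.Agent.U907.MR.exists_data (k := k) hm hk f hf
    obtain ⟨K, h1, h2, h3, h4, h5⟩ := Pool.Agent.U907.MR.step hk h D
    exact ⟨K, h1, h2, h3, h4, fun R hR => h5 R (by rw [mul_comm (Module.finrank ℚ F)]; exact hR)⟩
  · have h1 : m * k = 1 := by
      have : 0 < m * k := Nat.mul_pos hm hk
      omega
    have h2 : k = 1 := Nat.eq_one_of_mul_eq_one_left h1
    refine ⟨F, inferInstance, inferInstance, inferInstance, ?_, fun R _ => ?_⟩
    · rw [h2]
      exact Module.finrank_self F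
    · rw [h1]
      exact hasRank_one F R

/-- extensions of even degree, `m` odd -/
theorem even_ext (F : Type) [Field F] [NumberField F] (m k N : ℕ) (hodd : ¬ 2 ∣ m) (hk : 0 < k)
    (hk2 : 2 ∣ k) (hF : HasRank F m N) :
    ∃ (K : Type) (_ : Field K) (_ : NumberField K) (_ : Algebra F K),
      Module.finrank F K = k ∧ ∀ R, R + (k + 2) * Module.finrank ℚ F ≤ N →
        HasRank K (2 * m * k) R := by
  have hm : 1 ≤ m := by
    rcases Nat.eq_zero_or_pos m with h | h
    · rw [h] at hodd
      exact absurd (dvd_zero 2) hodd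
    · exact h
  obtain ⟨j, rfl⟩ := hk2
  have hj : 1 ≤ j := by omega
  obtain ⟨f, hf⟩ := hF
  obtain ⟨D⟩ := Pool.Agent.U907.MR.exists_data (k := 1) hm le_rfl f hf
  obtain ⟨L, _, _, _, hL, hLR⟩ := Pool.Agent.U907.RL.quad_step hm hodd D
  have hLQ : Module.finrank ℚ L = Module.finrank ℚ F * 2 := by
    rw [← Module.finrank_mul_finrank ℚ F L, hL]
  have hrank : HasRank L (4 * m) (N - Module.finrank ℚ F * 2) ∨ N < Module.finrank ℚ F * 2 := by
    rcases Nat.lt_or_ge N (Module.finrank ℚ F * 2) with h | h
    · exact Or.inr h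
    · exact Or.inl (hLR _ (by omega))
  rcases hrank with hrank | hlt
  · obtain ⟨K, _, _, _, hK, hKR⟩ := relative L (4 * m) j _ (by omega) hj hrank
    let _ : Algebra F K := ((algebraMap L K).comp (algebraMap F L)).toAlgebra
    have : IsScalarTower F L K := IsScalarTower.of_algebraMap_eq' rfl
    refine ⟨K, inferInstance, inferInstance, inferInstance, ?_, fun R hR => ?_⟩
    · rw [← Module.finrank_mul_finrank F L K, hL, hK]
    · have h1 := hKR R (by
        rw [hLQ]
        have h2 : (2 * j + 2) * Module.finrank ℚ F =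
          j * (Module.finrank ℚ F * 2) + Module.finrank ℚ F * 2 := by ring
        omega)
      have h3 : 4 * m * j = 2 * m * (2 * j) := by ring
      rw [← h3]
      exact h1
  · -- no condition on the class group
    obtain ⟨K, _, _, _, hK, _⟩ := relative L 1 j 0 le_rfl hj (hasRank_one L 0)
    let _ : Algebra F K := ((algebraMap L K).comp (algebraMap F L)).toAlgebra
    have : IsScalarTower F L K := IsScalarTower.of_algebraMap_eq' rfl
    refine ⟨K, inferInstance, inferInstance, inferInstance, ?_, fun R hR => ?_⟩
    · rw [← Module.finrank_mul_finrank F L K, hL, hK]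
    · exfalso
      have h2 : (2 * j + 2) * Module.finrank ℚ F =
        j * (Module.finrank ℚ F * 2) + Module.finrank ℚ F * 2 := by ring
      omega

/-- **Main theorem.** -/
theorem result :
    -- extensions of even degree `k` of a number field, `m` odd
    (∀ (F : Type) [Field F] [NumberField F] (m k N : ℕ), ¬ 2 ∣ m → 0 < k → 2 ∣ k → HasRank F m N →
      ∃ (K : Type) (_ : Field K) (_ : NumberField K) (_ : Algebra F K), Module.finrank F K = k ∧
        ∀ R, R + (k + 2) * Module.finrank ℚ F ≤ N → HasRank K (2 * m * k) R) ∧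
    -- every number field
    (∀ (F : Type) [Field F] [NumberField F] (m k R : ℕ), 0 < k → 2 ∣ k → m ∣ 2 * k →
      ∃ (K : Type) (_ : Field K) (_ : NumberField K) (_ : Algebra F K), Module.finrank F K = k ∧
        HasRank K m R) ∧
    (∀ d m k : ℕ, ¬ 2 ∣ m → 0 < k → 2 ∣ k → S d m → S (d * k) (2 * m * k)) := by
  refine ⟨fun F _ _ m k N hodd hk hk2 hF => even_ext F m k N hodd hk hk2 hF, ?_, ?_⟩
  · intro F _ _ m k R hk hk2 hmk
    obtain ⟨K, h1, h2, h3, h4, h5⟩ := even_ext F 1 k (R + (k + 2) * Module.finrank ℚ F)
      (by decide) hk hk2 (hasRank_one F _)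
    exact ⟨K, h1, h2, h3, h4, (h5 R le_rfl).dvd (by omega) (by simpa using hmk)⟩
  · intro d m k hodd hk hk2 h R
    obtain ⟨F, _, _, hF, hr⟩ := h (R + (k + 2) * d)
    obtain ⟨K, h1, h2, h3, h4, h5⟩ := even_ext F m k _ hodd hk hk2 hr
    refine ⟨K, h1, h2, ?_, h5 R (by rw [hF])⟩
    rw [← hF, ← h4]
    exact (Module.finrank_mul_finrank ℚ F K).symm

end Pool.Agent.Results.MP_176ace_nt.EvenExtensions
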