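import Pool.Agent.U907.MR.Base

/-!
# Unbounded `m`-rank for all even degrees `d` and all `m ∣ 2 d`

`S(d, m)` says that for every `R` some number field of degree `d` has a class group that contains
`(ℤ/m)^R`. It was known for `m ∣ d`. Here:

* `S(d, m)` holds for all even `d` and all divisors `m` of `2 d`. So it holds for infinitely many pairs
  with `m ∤ d`: `(2, 4)`, `(4, 8)`, `(6, 4)`, `(6, 12)`, `(8, 16)`, `(10, 20)`, ...
* `S(d, m)` implies `S(d k, m k)` for all `k`. More precisely, every number field `F` with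
  `(ℤ/m)^N ⊆ Cl(F)` has an extension `K` of degree `k` with `(ℤ/mk)^(N - k [F : ℚ]) ⊆ Cl(K)`.
* Therefore `S(d, m)` is true for all `d, m > 1` if it is true for all prime degrees `d` and all `m > 1`.

Proof of the second part. Let `𝔞₁, …, 𝔞_N` be pairwise coprime integral ideals of `F` whose classes
generate a subgroup `(ℤ/m)^N`, `𝔭_i ∣ 𝔞_i` a prime dividing `𝔞_i` exactly once, `𝔮` a prime not dividing
`m k` and the `𝔞_i`, and `𝔢` an ideal coprime to them such that `𝔞₁ ⋯ 𝔞_N 𝔮 𝔢 = (δ)` is principal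
(ideal classes contain integral ideals coprime to any given ideal, `U907/MR/Cop`, `Data`). In
`K = F(δ^{1/k})` the ideals `𝔞_i` are `k`-th powers `𝔄_i ^ k`, since `(δ^{1/k})^k` is the product of `𝔞_i` and
of an ideal coprime to `𝔞_i`. If `(α_i) = 𝔞_i ^ m` then `(α_i) = 𝔄_i ^ (m k)` in `K`. The `α_i` are
independent modulo `ℓ`-th powers in `F` for the primes `ℓ ∣ m k` (by the classes if `ℓ ∣ m`, by the primes
`𝔭_i` otherwise), hence also in `K`, because `𝔮` is totally ramified in `K` and the `α_i` are units at `𝔮`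
(`U907/MR/Val`: an element of `K` is a sum `∑ c_j θ^j` of terms with different valuations). The units of
`K` give at most `k [F : ℚ]` relations (`U907/MR/Cls`).

Proof of the first part: the case `d = 2`, `m = 4` (`U907/MR/Quad`, `Base`). Let `D` be a product of primes
`p_i = 1` modulo `4` that are squares modulo each other. By Legendre's theorem and the multiplicativity
of norms `p_i X² + (D/p_i) Y² = Z²` has a primitive solution. In `ℚ(√(-D))` the element
`(p_i X + Y √(-D))² / p_i` generates the fourth power of an ideal, and these elements are independent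
modulo squares, because they are the `p_i` modulo squares.
-/

set_option autoImplicit false

namespace Pool.Agent.Results.MP_176ace_nt.MultiplesOfTheDegree

open NumberField

/-- `(ℤ/m)^R` is isomorphic to a subgroup of the class group of `K` -/
def HasRank (K : Type) [Field K] [NumberField K] (m R : ℕ) : Prop :=
  ∃ f : Multiplicative (Fin R → ZMod m) →* ClassGroup (𝓞 K), Function.Injective f

/-- `S(d, m)`: for every `R` there is a number field of degree `d` whose class group contains
`(ℤ/m)^R` -/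
def S (d m : ℕ) : Prop :=
  ∀ R : ℕ, ∃ (K : Type) (_ : Field K) (_ : NumberField K), Module.finrank ℚ K = d ∧ HasRank K m R

theorem hasRank_one (K : Type) [Field K] [NumberField K] (R : ℕ) : HasRank K 1 R := by
  refine ⟨1, ?_⟩
  intro a b _
  have : Subsingleton (Multiplicative (Fin R → ZMod 1)) :=
    inferInstanceAs (Subsingleton (Fin R → ZMod 1))
  exact Subsingleton.elim a b

theorem HasRank.dvd {K : Type} [Field K] [NumberField K] {m m' R : ℕ} (hm : 0 < m) (h : m' ∣ m)
    (hK : HasRank K m R) : HasRank K m' R := by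
  obtain ⟨f, hf⟩ := hK
  obtain ⟨c, rfl⟩ := h
  have hm' : 0 < m' := Nat.pos_of_mul_pos_right hm |> fun h => by
    rcases Nat.eq_zero_or_pos m' with h0 | h0
    · rw [h0, zero_mul] at hm
      exact absurd hm (lt_irrefl 0)
    · exact h0
  have hc : 0 < c := by
    rcases Nat.eq_zero_or_pos c with h0 | h0
    · rw [h0, mul_zero] at hm
      exact absurd hm (lt_irrefl 0)
    · exact h0
  have : NeZero m' := ⟨hm'.ne'⟩
  have hz : m' • ((c : ℕ) : ZMod (m' * c)) = 0 := by
    rw [nsmul_eq_mul, ← Nat.cast_mul, ZMod.natCast_self]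
  set φ : ZMod m' →+ ZMod (m' * c) := Pool.Agent.W240.CG.hm m' ((c : ℕ) : ZMod (m' * c)) hz with hφ
  have hφi : Function.Injective φ := by
    rw [injective_iff_map_eq_zero]
    intro x hx
    rw [hφ, Pool.Agent.W240.CG.hm_val, nsmul_eq_mul, ← Nat.cast_mul, ZMod.natCast_eq_zero_iff] at hx
    have h1 := Nat.dvd_of_mul_dvd_mul_right hc hx
    have h2 := Nat.eq_zero_of_dvd_of_lt h1 (ZMod.val_lt x)
    exact (ZMod.val_eq_zero x).1 h2
  set ψ : (Fin R → ZMod m') →+ (Fin R → ZMod (m' * c)) := φ.compLeft (Fin R) with hψ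
  have hψi : Function.Injective ψ := fun a b hab => funext fun i => hφi (congrFun hab i)
  exact ⟨f.comp (AddMonoidHom.toMultiplicative ψ), hf.comp hψi⟩

theorem relative (F : Type) [Field F] [NumberField F] (m k N : ℕ) (hm : 1 ≤ m) (hk : 1 ≤ k)
    (hF : HasRank F m N) : ∃ (K : Type) (_ : Field K) (_ : NumberField K) (_ : Algebra F K),
      Module.finrank F K = k ∧ ∀ R, R + k * Module.finrank ℚ F ≤ N → HasRank K (m * k) R := by
  obtain ⟨f, hf⟩ := hF
  by_cases h : 2 ≤ m * k
  · obtain ⟨D⟩ := Pool.Agent.U907.MR.exists_data (k := k) hm hk f hf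
    obtain ⟨K, h1, h2, h3, h4, h5⟩ := Pool.Agent.U907.MR.step hk h D
    exact ⟨K, h1, h2, h3, h4, fun R hR => h5 R (by rw [mul_comm (Module.finrank ℚ F)]; exact hR)⟩
  · have h1 : m * k = 1 := by
      have : 0 < m * k := Nat.mul_pos hm hk
      omega
    have h2 : k = 1 := Nat.eq_one_of_mul_eq_one_left h1
    refine ⟨F, inferInstance, inferInstance, inferInstance, ?_, fun R _ => ?_⟩
    · rw [h2]
      exact Module.finrank_self F
    · rw [h1]
      exact hasRank_one F R

theorem mult {d m k : ℕ} (hm : 1 ≤ m) (hk : 1 ≤ k) (h : S d m) : S (d * k) (m * k) := by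
  intro R
  obtain ⟨F, _, _, hF, hr⟩ := h (R + k * d)
  obtain ⟨K, h1, h2, h3, h4, h5⟩ := relative F m k _ hm hk hr
  refine ⟨K, h1, h2, ?_, h5 R (by rw [hF])⟩
  rw [← hF, ← h4]
  exact (Module.finrank_mul_finrank ℚ F K).symm

/-- **Main theorem.** -/
theorem result :
    -- even degrees `d` and `m ∣ 2 d`
    (∀ d m : ℕ, 0 < d → 2 ∣ d → m ∣ 2 * d → S d m) ∧
    -- extensions of any number field
    (∀ (F : Type) [Field F] [NumberField F] (m k N : ℕ), 1 ≤ m → 1 ≤ k → HasRank F m N →
      ∃ (K : Type) (_ : Field K) (_ : NumberField K) (_ : Algebra F K), Module.finrank F K = k ∧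
        ∀ R, R + k * Module.finrank ℚ F ≤ N → HasRank K (m * k) R) ∧
    (∀ d m k : ℕ, 1 ≤ m → 1 ≤ k → S d m → S (d * k) (m * k)) ∧
    -- reduction to prime degrees
    ((∀ p m : ℕ, p.Prime → 1 < m → S p m) → ∀ d m : ℕ, 1 < d → 1 < m → S d m) := by
  refine ⟨?_, relative, fun d m k hm hk => mult hm hk, ?_⟩
  · rintro d m hd ⟨k, rfl⟩ hm R
    have hk : 1 ≤ k := by omega
    obtain ⟨K, h1, h2, h3, h4⟩ := mult (d := 2) (m := 4) (by norm_num) hk
      Pool.Agent.U907.MR.base4 R
    refine ⟨K, h1, h2, h3, h4.dvd (by omega) ?_⟩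
    have : 4 * k = 2 * (2 * k) := by ring
    rw [this]
    exact hm
  · intro h d m hd hm R
    obtain ⟨p, hp, k, rfl⟩ := Nat.exists_prime_and_dvd (show d ≠ 1 by omega)
    have hk : 1 ≤ k := by
      rcases Nat.eq_zero_or_pos k with h0 | h0
      · rw [h0, mul_zero] at hd
        omega
      · exact h0
    obtain ⟨K, h1, h2, h3, h4⟩ := mult (by omega) hk (h p m hp hm) R
    exact ⟨K, h1, h2, h3, h4.dvd (Nat.mul_pos (by omega) hk) (Dvd.intro _ rfl)⟩

end Pool.Agent.Results.MP_176ace_nt.MultiplesOfTheDegree
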